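import Pool.Agent.H78.CM.Targets

/-!
Module BEG (MP_308708_lc, board onep_modules of helper78): a representation with a nontrivial
one-parameter group in the image.
-/

set_option autoImplicit false

open Filter Topology MeasureTheory Set

universe u

namespace Pool.Agent.H64.CM.BEG

open Pool.Agent.H78.CM

open scoped Matrix.Norms.L2Operator

theorem exists_connected (K : Type u) [Group K] [TopologicalSpace K] [IsTopologicalGroup K]
    (h : ¬ TotallyDisconnectedSpace K) :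
    ∃ (C : Set K) (k : K), IsPreconnected C ∧ (1 : K) ∈ C ∧ k ∈ C ∧ k ≠ 1 := by
  rw [totallyDisconnectedSpace_iff_connectedComponent_singleton] at h
  push Not at h
  obtain ⟨x, hx⟩ := h
  have hne : ∃ y ∈ connectedComponent x, y ≠ x := by
    by_contra hcon
    push Not at hcon
    exact hx (Set.Subset.antisymm (fun y hy => hcon y hy)
      (by rintro y rfl; exact mem_connectedComponent))
  obtain ⟨y, hy, hyx⟩ := hne
  refine ⟨(fun z => x⁻¹ * z) '' connectedComponent x, x⁻¹ * y, ?_, ?_, ?_, ?_⟩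
  · exact isPreconnected_connectedComponent.image _ (continuous_const_mul x⁻¹).continuousOn
  · exact ⟨x, mem_connectedComponent, inv_mul_cancel x⟩
  · exact ⟨y, hy, rfl⟩
  · intro h1
    exact hyx (inv_mul_eq_one.1 h1).symm

theorem beg (h1 : T_PW.{u}) (h2 : T_CLU.{u}) : T_BEG.{u} := by
  intro K _ _ _ _ _ _ hK
  obtain ⟨C, k0, hC, h1C, hk0, hne⟩ := exists_connected K hK
  obtain ⟨m, σ, hσ, horth, hσ0⟩ := h1 K k0 hne
  refine ⟨m, σ, hσ, horth, ?_⟩
  set δ : ℝ := ‖σ k0 - 1‖ with hδ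
  have hδ0 : 0 < δ := norm_pos_iff.2 (sub_ne_zero.2 hσ0)
  have hf : Continuous fun k : K => ‖σ k - 1‖ := (hσ.sub continuous_const).norm
  have hiv := hC.intermediate_value h1C hk0 hf.continuousOn
  have hf1 : ‖σ (1 : K) - 1‖ = 0 := by rw [map_one, sub_self, norm_zero]
  have hν : ∀ n : ℕ, ∃ k : K, ‖σ k - 1‖ = δ / ((n : ℝ) + 1) := by
    intro n
    have hn : (0 : ℝ) < (n : ℝ) + 1 := by positivity
    have hmem : δ / ((n : ℝ) + 1) ∈ Icc (‖σ (1 : K) - 1‖) (‖σ k0 - 1‖) := by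
      rw [hf1]
      refine ⟨by positivity, ?_⟩
      rw [← hδ]
      apply div_le_self hδ0.le
      linarith [Nat.cast_nonneg (α := ℝ) n]
    obtain ⟨k, _, hk⟩ := hiv hmem
    exact ⟨k, hk⟩
  choose k hk using hν
  set ν : ℕ → ℝ := fun n => δ / ((n : ℝ) + 1) with hνd
  have hν0 : ∀ n, 0 < ν n := fun n => by
    have hn : (0 : ℝ) < (n : ℝ) + 1 := by positivity
    exact div_pos hδ0 hn
  have hνl : Tendsto ν atTop (𝓝 0) := by
    have := (tendsto_one_div_add_atTop_nhds_zero_nat (𝕜 := ℝ)).const_mul δ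
    rw [mul_zero] at this
    refine this.congr fun n => ?_
    rw [hνd]
    ring
  have hy : ∀ n, (ν n)⁻¹ • (σ (k n) - 1) ∈ Metric.sphere (0 : Mat m) 1 := by
    intro n
    rw [mem_sphere_zero_iff_norm, norm_smul, hk n, Real.norm_eq_abs,
      abs_of_pos (inv_pos.2 (hν0 n))]
    exact inv_mul_cancel₀ (hν0 n).ne'
  have : ProperSpace (Mat m) := FiniteDimensional.proper ℝ (Mat m)
  obtain ⟨a, ha, ψ, hψ, hlim⟩ := (isCompact_sphere (0 : Mat m) 1).tendsto_subseq hy
  refine ⟨a, ?_, ?_⟩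
  · intro h0
    rw [h0, mem_sphere_zero_iff_norm, norm_zero] at ha
    exact zero_ne_one ha
  · intro t
    have hO : OneP (fun _ : ℝ => (univ : Set K)) :=
      ⟨by simp, fun _ _ _ _ _ _ => mem_univ _, fun _ _ _ => mem_univ _, fun _ => univ_nonempty⟩
    obtain ⟨l, _, hl⟩ := h2 K (fun _ : ℝ => (univ : Set K)) hO (Mat m) σ hσ
      (fun n => k (ψ n)) (fun _ => 0) (fun n => ν (ψ n)) 0 a (fun _ => mem_univ _)
      (fun n => hν0 _) (hνl.comp hψ.tendsto_atTop) (by simp) hlim t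
    exact ⟨l, hl⟩

end Pool.Agent.H64.CM.BEG
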